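import Pool.Agent.N869.QT.G.Stm

/-!
# Project QA (helper869): sums over squarefree numbers with the weight `r ^ ω`, general part

`R` is any type, `GP R` a set of primes with norms; `SAg G X` is the set of the finite sets of primes with
product of the norms at most `X` (the squarefree numbers up to `X`). The only input is the size of
`SAg G X`: at most `D X`, at least `c X`. `WS G r X` is the sum of `r ^ #S`. Everything here depends on
Mathlib only.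
-/

set_option autoImplicit false
set_option linter.unusedVariables false

open scoped Classical

namespace Pool.Agent.N869.QA.L

open Finset
open Pool.Agent.N869.QT.G (sys ClC exC pr Qn ET)

/-- primes with norms -/
structure GP (R : Type) where
  /-- the primes -/
  Pq : R → Prop
  /-- the norm -/
  nrm : R → ℕ
  /-- the primes of norm at most `X` -/
  QB : ℕ → Finset R
  mem : ∀ (X : ℕ) (π : R), π ∈ QB X ↔ nrm π ≤ X ∧ Pq π
  two_le : ∀ π, Pq π → 2 ≤ nrm π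

variable {R : Type}

/-- the squarefree numbers of norm at most `X` -/
noncomputable def SAg (G : GP R) (X : ℕ) : Finset (Finset R) :=
  (G.QB X).powerset.filter fun S => ∏ π ∈ S, G.nrm π ≤ X

/-- the weighted number of the squarefree numbers -/
noncomputable def WS (G : GP R) (r X : ℕ) : ℝ := ∑ S ∈ SAg G X, (r : ℝ) ^ S.card

/-- `1 + log X` -/
noncomputable def L1 (X : ℕ) : ℝ := 1 + Real.log X

/-- the upper bound for the number of the squarefree numbers -/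
def Up (G : GP R) (D : ℝ) : Prop := ∀ X : ℕ, 1 ≤ X → ((SAg G X).card : ℝ) ≤ D * X

/-- the lower bound for the number of the squarefree numbers -/
def Lo (G : GP R) (c : ℝ) (X₀ : ℕ) : Prop := ∀ X : ℕ, X₀ ≤ X → c * X ≤ ((SAg G X).card : ℝ)

/-- QA-WALL: the upper bound. -/
def S_WALL : Prop := ∀ (R : Type) (G : GP R) (D : ℝ), Up G D → ∀ r : ℕ, 1 ≤ r →
  ∃ C : ℝ, 1 ≤ C ∧ ∀ X : ℕ, 1 ≤ X → WS G r X ≤ C * (X * L1 X ^ (r - 1))

/-- QA-WLOW: the lower bound. -/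
def S_WLOW : Prop := ∀ (R : Type) (G : GP R) (D c : ℝ) (X₀ : ℕ), Up G D → 0 < c → Lo G c X₀ →
  ∀ r : ℕ, 1 ≤ r → ∃ (c' : ℝ) (X₁ : ℕ), 0 < c' ∧ ∀ X : ℕ, X₁ ≤ X →
    c' * (X * L1 X ^ (r - 1)) ≤ WS G r X

/-- the upper bound for the sums of a multiplicative function `g` that is small on average -/
def Sav (G : GP R) (g : R → ℝ) (B : ℝ) : Prop := ∀ X : ℕ, 1 ≤ X →
  ∑ S ∈ SAg G X, ∏ π ∈ S, g π ≤ B * (X * L1 X ^ (-(1 / 3) : ℝ))

/-- QA-WH: the saving for the weighted sums of `g`. -/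
def S_WH : Prop := ∀ (R : Type) (G : GP R) (D : ℝ), Up G D → ∀ r : ℕ, 1 ≤ r → ∃ C : ℝ, 1 ≤ C ∧
  ∀ (g : R → ℝ) (B : ℝ), 0 ≤ B → (∀ π, G.Pq π → 0 ≤ g π ∧ g π ≤ 1) → Sav G g B →
  ∀ X : ℕ, 1 ≤ X → ∑ S ∈ SAg G X, (r : ℝ) ^ S.card * ∏ π ∈ S, g π ≤
    C * B * (X * (L1 X ^ (r - 1) * L1 X ^ (-(1 / 3) : ℝ)))

/-- QA-WCLS: the lower bound for the class of the multiquadratic extensions. -/
def S_WCLS : Prop := ∀ (R : Type) (G : GP R) (D c : ℝ) (X₀ : ℕ), Up G D → 0 < c → Lo G c X₀ →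
  ∀ (tt : R → ZMod 2) (B : ℝ), 0 ≤ B → Sav G (fun π => if tt π = 1 then 1 / 3 else 1) B →
  ∀ (n : ℕ), 2 ≤ n → ∀ [Nonempty (Qn n)], ∃ (c' : ℝ) (X₁ : ℕ), 0 < c' ∧ ∀ X : ℕ, X₁ ≤ X →
    c' * (X * L1 X ^ (Fintype.card (Qn n) - 1)) ≤
      ∑ S ∈ SAg G X, (Fintype.card (Qn n) : ℝ) ^ S.card *
        pr S (fun γ : R → Qn n => ClC tt γ ET S)

/-- QA-WDEG: the degenerate colourings are rare. -/
def S_WDEG : Prop := ∀ (R : Type) (G : GP R) (D : ℝ), Up G D →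
  ∀ (n : ℕ), 2 ≤ n → ∀ [Nonempty (Qn n)], ∀ ε : ℝ, 0 < ε → ∃ X₁ : ℕ, ∀ X : ℕ, X₁ ≤ X →
    ∑ S ∈ SAg G X, (Fintype.card (Qn n) : ℝ) ^ S.card *
        pr S (fun γ : R → Qn n => ∃ T : Qn n, sys γ ET S T = ∅) ≤
      ε * (X * L1 X ^ (Fintype.card (Qn n) - 1))

end Pool.Agent.N869.QA.L
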